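import Pool.Agent.SelPole.Half

/-!
MP_995735_nt, Q1, partial answer: members of the Selberg class whose coefficients dominate those
of `ζ^r L`, `r` the order of the pole at `s = 1`.
-/

namespace Pool.Agent.Results.MP_995735_nt.DominatesZeta

open Complex Pool.Agent.SelPole
open scoped ArithmeticFunction.vonMangoldt

/-- Let `F` be in the Selberg class with a pole of order exactly `r` at `s = 1`, and let `L` be
entire with real coefficients `c(n)` of `log L`, `L(1) ≠ 0`, and at each real point of `[1/2, 1)`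
at most the order of vanishing of `F` (for instance `L = 1`, `c = 0`). Suppose that outside a set
`E` of integers that is thin of exponent less than `1/2` the number
`b(n) log n - (r Λ(n) + c(n) log n)` lies in the sector `0 ≤ Re z`, `|Im z| ≤ K Re z`.
Then `F = ζ^r L`. -/
theorem result {F : ℂ → ℂ} {a b : ℕ → ℂ} (hF : IsSelberg F a b) {r : ℕ}
    (hpole : meromorphicOrderAt F 1 = ((-(r : ℤ) : ℤ) : WithTop ℤ))
    {L : ℂ → ℂ} {c : ℕ → ℝ} (hL : IsEulerProduct L (fun n => (c n : ℂ)))
    (hLent : Differentiable ℂ L) (hL1 : L 1 ≠ 0)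
    (hLx : ∀ x : ℝ, 1 / 2 ≤ x → x < 1 → meromorphicOrderAt L x ≤ meromorphicOrderAt F x)
    {E : Set ℕ} {σ₀ : ℝ} (hσ₀ : σ₀ < 1 / 2)
    (hE : Summable (E.indicator fun n : ℕ =>
      ((‖b n‖ + |c n|) * Real.log n + Λ n) * (n : ℝ) ^ (-σ₀)))
    {K : ℝ} (hdom : ∀ n : ℕ, n ∉ E → r * Λ n + c n * Real.log n ≤ (b n).re * Real.log n ∧
      |(b n).im| * Real.log n ≤ K * ((b n).re * Real.log n - (r * Λ n + c n * Real.log n))) :
    ∀ s : ℂ, s ≠ 1 → F s = riemannZeta s ^ r * L s :=
  dominates_sector hF.isEulerProduct hpole hL hLent hL1 hLx hσ₀ hE hdom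

end Pool.Agent.Results.MP_995735_nt.DominatesZeta
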